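import Pool.Agent.H46.D2.NoLb
import Pool.Agent.H31.W.H24.D2.Vis
import Pool.Agent.H3.W.Nlp
import Pool.Agent.H31.W1.H2.GEN.ChT
import Pool.Agent.H31.W1.H80.GEN.Chn

/-!
# Labels above the threshold

`Lab`: a label of the coordinate `c i` over a chain of labels, with a side which is a function of
the point and a side which is a function of the line and of the window. `chok_snoc`: it prolongs
the chain. `lab_ev`: in a class with the thresholds of the chain labels, an event with a label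
above the threshold is small; `lab_no`: there is no such label on large events.
-/

set_option autoImplicit false

namespace Pool.W.NLB46

open Pool.NLB46

open Finset Real MvPolynomial
open Pool.Agent.H49.Ent Pool.Agent.H32.Dense Pool.STK Pool.KA Pool.KSAT Pool.K2S Pool.PB Pool.S6C
open Pool.GEN Pool.CHT
open Pool.LBT (ThrOf)

variable {m : ℕ}

/-- **A label** of `c i` over the labels `G` of the coordinates before it, of degree at most `D` and
precision `p`, on the natural boxes of radius `2 ^ (-a)`, which is closed on the window `w`. -/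
structure Lab {J : ℕ} (F : Pool.KA.Fam m J) (c : ℕ → Fin m) (i D a w e p : ℕ) (g : ℕ → ℕ)
    (G : Pool.GEN.PtT F → ℕ → MvPolynomial (Option (Fin m)) ℝ) (A : F.Ω → Prop)
    (Gt : Pool.GEN.PtT F → MvPolynomial (Option (Fin m)) ℝ)
    (Ht : Pool.GEN.LnT F → MvPolynomial (Option (Fin m)) ℝ) : Prop where
  degG : ∀ y, (Gt y).totalDegree ≤ D
  degH : ∀ s, (Ht s).totalDegree ≤ D
  depG : ∀ y, Pool.GEN.DepC c i (Gt y)
  depH : ∀ s, Pool.GEN.DepC c i (Ht s)
  pos : ∀ ω, A ω → |F.x ω (c i) - eval (Pool.GEN.bt F ω) (Gt (Pool.PB.ptr F J ω))| ≤ 1 / 2 ^ p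
  agr : ∀ ω, A ω → ∀ b : Option (Fin m) → ℝ, Pool.GEN.NBx c (G (Pool.PB.ptr F J ω)) g a (F.t ω) i b →
    |eval b (Gt (Pool.PB.ptr F J ω)) - eval b (Ht (Pool.KSAT.slam F w ω))| ≤ 1 / 2 ^ p
  lip : ∀ ω, A ω → ∀ b : Option (Fin m) → ℝ, Pool.GEN.NBx c (G (Pool.PB.ptr F J ω)) g a (F.t ω) i b →
    ∀ l < i, |eval b (pderiv (some (c l)) (Gt (Pool.PB.ptr F J ω)))| ≤
      2 ^ (e + Pool.W.GEN.nlp (fun j => if j < i then g j else p) l i)


/-- **A label prolongs the chain.** -/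
theorem chok_snoc {J : ℕ} {F : Pool.KA.Fam m J} {c : ℕ → Fin m} {i a w e p K : ℕ} {Kv g : ℕ → ℕ}
    {B : F.Ω → Prop} {G : Pool.GEN.PtT F → ℕ → MvPolynomial (Option (Fin m)) ℝ}
    {H : Pool.GEN.LnT F → ℕ → MvPolynomial (Option (Fin m)) ℝ}
    {Gt : Pool.GEN.PtT F → MvPolynomial (Option (Fin m)) ℝ} {Ht : Pool.GEN.LnT F → MvPolynomial (Option (Fin m)) ℝ}
    (hKv : ∀ l, Kv l ≤ K) (hch : Pool.W.GEN.ChOK F c i Kv a w e g B G H)
    (hG : Pool.W.NLB46.Lab F c i K a w e p g G B Gt Ht) :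
    Pool.W.GEN.ChOK F c (i + 1) (fun _ => K) a w e (fun j => if j < i then g j else p) B
      (fun y j => if j < i then G y j else Gt y) (fun s j => if j < i then H s j else Ht s) := by
  have bx : ∀ {y : Pool.GEN.PtT F} {t : ℝ} {l : ℕ} {b : Option (Fin m) → ℝ}, l ≤ i →
      Pool.GEN.NBx c (fun j => if j < i then G y j else Gt y)
        (fun j => if j < i then g j else p) a t l b → Pool.GEN.NBx c (G y) g a t l b := by
    intro y t l b hl hb
    refine ⟨hb.1, fun j hj => ?_⟩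
    have h1 := hb.2 j hj
    simp only [if_pos (show j < i by omega)] at h1
    exact h1
  refine ⟨fun y j => ?_, fun s j => ?_, fun y j => ?_, fun s j => ?_, fun ω hω j hj => ?_,
    fun ω hω j hj b hb => ?_, fun ω hω j hj b hb l hl => ?_⟩
  · show (if j < i then G y j else Gt y).totalDegree ≤ K
    split_ifs with h
    · exact (hch.degG y j).trans (hKv j)
    · exact hG.degG y
  · show (if j < i then H s j else Ht s).totalDegree ≤ K
    split_ifs with h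
    · exact (hch.degH s j).trans (hKv j)
    · exact hG.degH s
  · show Pool.GEN.DepC c j (if j < i then G y j else Gt y)
    split_ifs with h
    · exact hch.depG y j
    · exact (hG.depG y).mono (not_lt.1 h)
  · show Pool.GEN.DepC c j (if j < i then H s j else Ht s)
    split_ifs with h
    · exact hch.depH s j
    · exact (hG.depH s).mono (not_lt.1 h)
  · show |F.x ω (c j) - eval (Pool.GEN.bt F ω) (if j < i then G (Pool.PB.ptr F J ω) j else
      Gt (Pool.PB.ptr F J ω))| ≤ 1 / 2 ^ (if j < i then g j else p)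
    by_cases h : j < i
    · rw [if_pos h, if_pos h]
      exact hch.pos ω hω j h
    · have hji : j = i := by omega
      subst hji
      rw [if_neg h, if_neg h]
      exact hG.pos ω hω
  · have hb' := bx (by omega) hb
    show |eval b (if j < i then G (Pool.PB.ptr F J ω) j else Gt (Pool.PB.ptr F J ω)) -
      eval b (if j < i then H (Pool.KSAT.slam F w ω) j else Ht (Pool.KSAT.slam F w ω))| ≤
        1 / 2 ^ (if j < i then g j else p)
    by_cases h : j < i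
    · rw [if_pos h, if_pos h, if_pos h]
      exact hch.agr ω hω j h b hb'
    · have hji : j = i := by omega
      subst hji
      rw [if_neg h, if_neg h, if_neg h]
      exact hG.agr ω hω b hb'
  · have hb' := bx (by omega) hb
    show |eval b (pderiv (some (c l)) (if j < i then G (Pool.PB.ptr F J ω) j else
      Gt (Pool.PB.ptr F J ω)))| ≤ 2 ^ (e + Pool.W.GEN.nlp (fun j => if j < i then g j else p) l j)
    by_cases h : j < i
    · rw [if_pos h]
      refine (hch.lip ω hω j h b hb' l hl).trans (pow_le_pow_right₀ (by norm_num) ?_)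
      rw [Pool.W.CHT.nlp_congr (g := g) (g' := fun j => if j < i then g j else p) (l := l) (i := j)
        fun x hx => (if_pos (by omega)).symm]
    · have hji : j = i := by omega
      subst hji
      rw [if_neg h]
      exact hG.lip ω hω b hb' l hl

variable {θ : ℝ} {S : Pool.PB.PCl m} {P : List (Fin m) × Fin m → ℝ → ℝ → ℝ}

/-- **Events with a label above the threshold are small.** -/
theorem lab_ev (hP : Pool.LBT.ThrOf (Pool.W.CHT.chsys m θ) S P) (c : ℕ → Fin m) (i K : ℕ) (a w : ℚ) (e h : ℝ)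
    (hw : 0 ≤ w) (hwa : w ≤ a) (ha : a ≤ 1) (he : e < θ * w) (hh : 0 < h)
    (h1 : Pool.CHT.bet P c i a w + h ≤ 1) :
    ∃ δ : ℝ, 0 < δ ∧ Pool.S6C.Bas S (fun J F A => ∀ (a₀ w₀ e₀ p : ℕ) (Kv g : ℕ → ℕ)
      (G : Pool.GEN.PtT F → ℕ → MvPolynomial (Option (Fin m)) ℝ)
      (H : Pool.GEN.LnT F → ℕ → MvPolynomial (Option (Fin m)) ℝ)
      (Gt : Pool.GEN.PtT F → MvPolynomial (Option (Fin m)) ℝ)
      (Ht : Pool.GEN.LnT F → MvPolynomial (Option (Fin m)) ℝ),
      w₀ ≤ a₀ → a₀ ≤ ⌊(a : ℝ) * J⌋₊ → w₀ ≤ ⌊(w : ℝ) * J⌋₊ → e₀ ≤ ⌊e * J⌋₊ → (∀ l, Kv l ≤ K) →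
      (∀ l < i, g l ≤ J) → p ≤ J → ⌊(Pool.CHT.bet P c i a w + h) * J⌋₊ + a₀ ≤ p + ⌊(a : ℝ) * J⌋₊ →
      ∀ (B : F.Ω → Prop), Pool.K2S.Sub B A → Pool.W.GEN.ChOK F c i Kv a₀ w₀ e₀ g B G H →
      Pool.W.NLB46.Lab F c i K a₀ w₀ e₀ p g G B Gt Ht → Pool.K2S.Pe F.p B ≤ Real.exp (-(δ * J)) * Pool.K2S.Pe F.p A) := by
  obtain ⟨τ, hτ, J₁, hno⟩ := Pool.W.CHT.no_unif hP c i (fun _ => K) a w e h hw hwa ha he hh h1
  refine ⟨τ / 2, by linarith, τ / 2, by linarith, J₁, ?_⟩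
  intro J hJ F A hA a₀ w₀ e₀ p Kv g G H Gt Ht k0 k1 k2 k3 k4 k5 k6 k7 B hBA hch hV
  by_contra hcon
  push Not at hcon
  have hB : S.St (τ / 2 + τ / 2) J F B := S.res (by linarith) hA hBA hcon.le
  rw [add_halves] at hB
  refine hno J hJ F B hB a₀ w₀ e₀ (fun j => if j < i then g j else p) k0 k1 k2 k3
    (fun l _ => ?_) ?_ ⟨_, _, Pool.W.NLB46.chok_snoc k4 hch hV⟩
  · show (if l < i then g l else p) ≤ J
    split_ifs with hl
    · exact k5 l hl
    · exact k6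
  · show _ ≤ (if i < i then g i else p) + _
    rw [if_neg (lt_irrefl i)]
    exact k7

/-- **No label above the threshold** on an event which is not small. -/
theorem lab_no (hP : Pool.LBT.ThrOf (Pool.W.CHT.chsys m θ) S P) (c : ℕ → Fin m) (i K : ℕ) (a w : ℚ) (e h : ℝ)
    (hw : 0 ≤ w) (hwa : w ≤ a) (ha : a ≤ 1) (he : e < θ * w) (hh : 0 < h)
    (h1 : Pool.CHT.bet P c i a w + h ≤ 1) :
    ∃ δ : ℝ, 0 < δ ∧ Pool.S6C.Bas S (fun J F A => ∀ (a₀ w₀ e₀ p : ℕ) (Kv g : ℕ → ℕ)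
      (G : Pool.GEN.PtT F → ℕ → MvPolynomial (Option (Fin m)) ℝ)
      (H : Pool.GEN.LnT F → ℕ → MvPolynomial (Option (Fin m)) ℝ)
      (Gt : Pool.GEN.PtT F → MvPolynomial (Option (Fin m)) ℝ)
      (Ht : Pool.GEN.LnT F → MvPolynomial (Option (Fin m)) ℝ),
      w₀ ≤ a₀ → a₀ ≤ ⌊(a : ℝ) * J⌋₊ → w₀ ≤ ⌊(w : ℝ) * J⌋₊ → e₀ ≤ ⌊e * J⌋₊ → (∀ l, Kv l ≤ K) →
      (∀ l < i, g l ≤ J) → p ≤ J → ⌊(Pool.CHT.bet P c i a w + h) * J⌋₊ + a₀ ≤ p + ⌊(a : ℝ) * J⌋₊ →
      ∀ (B : F.Ω → Prop), Pool.K2S.Sub B A → Real.exp (-(δ * J)) * Pool.K2S.Pe F.p A ≤ Pool.K2S.Pe F.p B →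
      Pool.W.GEN.ChOK F c i Kv a₀ w₀ e₀ g B G H → ¬ Pool.W.NLB46.Lab F c i K a₀ w₀ e₀ p g G B Gt Ht) := by
  obtain ⟨δ, hδ, hev⟩ := Pool.W.NLB46.lab_ev hP c i K a w e h hw hwa ha he hh h1
  have hpos := Pool.W.VIS24.pos_thr hP c i a w e h hw hwa ha he hh h1
  refine ⟨δ / 2, by linarith, Pool.S6C.Bas.mono 1 (hev.and hpos) ?_⟩
  intro J hJ F A hA a₀ w₀ e₀ p Kv g G H Gt Ht k0 k1 k2 k3 k4 k5 k6 k7 B hBA hB hch hV
  have h2 := hA.1 a₀ w₀ e₀ p Kv g G H Gt Ht k0 k1 k2 k3 k4 k5 k6 k7 B hBA hch hV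
  have h3 : Real.exp (-(δ / 2 * J)) * Pool.K2S.Pe F.p A ≤ Real.exp (-(δ * J)) * Pool.K2S.Pe F.p A := hB.trans h2
  have h4 := le_of_mul_le_mul_right h3 hA.2
  rw [Real.exp_le_exp] at h4
  have h5 : (1 : ℝ) ≤ J := by exact_mod_cast hJ
  nlinarith

end Pool.W.NLB46
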